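import Pool.Agent.H68.L.R_seed8.TH423.SH.Stm
import Pool.Agent.H68.L.R_seed8.Helper923.PNT

/-!
The prime number theorem for arithmetic progressions in long intervals (job SH-PAI, helper416 for
helper423).
-/

set_option autoImplicit false

open Finset Filter Topology ArithmeticFunction

namespace Pool.Agent.TH423.SH

namespace PAIP

open Classical in
/-- the logarithmic count of the primes of a class in an interval -/
noncomputable def T (m a u v : ℕ) : ℝ :=
  ∑ q ∈ (Ioc u v).filter (fun q => q.Prime ∧ q % m = a % m), Real.log q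

/-- the sum of the von Mangoldt function in a class -/
noncomputable def Ps (m a N : ℕ) : ℝ :=
  ∑ k ∈ Icc 1 N, vonMangoldt.residueClass (a : ZMod m) k

theorem split (m a u v : ℕ) (huv : u ≤ v) :
    T m a u v ≤ Ps m a v - Ps m a u ∧
      Ps m a v - Ps m a u ≤ T m a u v + (Chebyshev.psi v - Chebyshev.theta v) := by
  classical
  have e0 : ∀ N : ℕ, Icc 1 N = Ioc 0 N := by
    intro N; ext; simp [Finset.mem_Icc, Finset.mem_Ioc]; omega
  have e1 : Ps m a v - Ps m a u = ∑ k ∈ Ioc u v, vonMangoldt.residueClass (a : ZMod m) k := by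
    unfold Ps
    rw [e0, e0, ← Finset.sum_Ioc_consecutive _ (Nat.zero_le u) huv]
    ring
  have e2 := Finset.sum_filter_add_sum_filter_not (Ioc u v) (fun r => r.Prime)
    (fun k => vonMangoldt.residueClass (a : ZMod m) k)
  have e3 : ∑ r ∈ (Ioc u v).filter (fun r => r.Prime), vonMangoldt.residueClass (a : ZMod m) r =
      T m a u v := by
    unfold T
    rw [← Finset.filter_filter, Finset.sum_filter (p := fun r : ℕ => r % m = a % m)]
    apply Finset.sum_congr rfl
    intro r hr
    rw [Finset.mem_filter] at hr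
    split_ifs with h
    · rw [vonMangoldt.residueClass, Set.indicator_of_mem]
      · exact vonMangoldt_apply_prime hr.2
      · exact (ZMod.natCast_eq_natCast_iff' r a m).2 h
    · rw [vonMangoldt.residueClass, Set.indicator_of_notMem]
      intro h2
      exact h ((ZMod.natCast_eq_natCast_iff' r a m).1 h2)
  have e4 : 0 ≤ ∑ r ∈ (Ioc u v).filter (fun r => ¬ r.Prime),
      vonMangoldt.residueClass (a : ZMod m) r :=
    Finset.sum_nonneg fun r _ => vonMangoldt.residueClass_nonneg _ _
  have e5 : ∑ r ∈ (Ioc u v).filter (fun r => ¬ r.Prime),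
      vonMangoldt.residueClass (a : ZMod m) r ≤ Chebyshev.psi v - Chebyshev.theta v := by
    rw [Chebyshev.psi_sub_theta_eq_sum_not_prime, Nat.floor_natCast]
    refine (Finset.sum_le_sum fun r _ => vonMangoldt.residueClass_le _ r).trans ?_
    refine Finset.sum_le_sum_of_subset_of_nonneg ?_ fun r _ _ => vonMangoldt_nonneg
    intro r hr
    rw [Finset.mem_filter, Finset.mem_Ioc] at hr ⊢
    exact ⟨⟨by omega, hr.1.2⟩, hr.2⟩
  rw [e1]
  constructor <;> linarith

theorem card_bounds (m a u v : ℕ) (hu : 0 < u) :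
    (((Ioc u v).filter (fun q => q.Prime ∧ q % m = a % m)).card : ℝ) * Real.log u ≤ T m a u v ∧
      T m a u v ≤
        (((Ioc u v).filter (fun q => q.Prime ∧ q % m = a % m)).card : ℝ) * Real.log v := by
  classical
  have hu' : (0 : ℝ) < u := by exact_mod_cast hu
  constructor
  · unfold T
    rw [← nsmul_eq_mul, ← Finset.sum_const]
    refine Finset.sum_le_sum fun q hq => ?_
    rw [Finset.mem_filter, Finset.mem_Ioc] at hq
    apply Real.log_le_log hu'
    exact_mod_cast hq.1.1.le
  · unfold T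
    rw [← nsmul_eq_mul, ← Finset.sum_const]
    refine Finset.sum_le_sum fun q hq => ?_
    rw [Finset.mem_filter, Finset.mem_Ioc] at hq
    apply Real.log_le_log
    · exact_mod_cast hq.2.1.pos
    · exact_mod_cast hq.1.2

/-- the final estimate -/
theorem fin {N lx lu lv D T ε : ℝ} (hN : 0 ≤ N) (hε : 0 < ε) (hD : 0 < D)
    (hlu : lx - 1 ≤ lu) (hlv : lv ≤ lx + 2) (hlx : 4 * (1 + ε) / ε ≤ lx)
    (h1 : N * lu ≤ T) (h2 : T ≤ N * lv) (h3 : |T - D| ≤ ε / 2 * D) :
    |N - D / lx| ≤ ε * (D / lx) := by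
  have hlx4 : 4 < lx := by
    refine lt_of_lt_of_le ?_ hlx
    rw [lt_div_iff₀ hε]
    linarith
  have hlx0 : 0 < lx := by linarith
  rw [div_le_iff₀ hε] at hlx
  have h4 := abs_le.1 h3
  have h5 : N * (lx - 1) ≤ (1 + ε / 2) * D := by
    have := mul_le_mul_of_nonneg_left hlu hN
    linarith [h4.2]
  have h6 : (1 - ε / 2) * D ≤ N * (lx + 2) := by
    have := mul_le_mul_of_nonneg_left hlv hN
    linarith [h4.1]
  rw [abs_le]
  constructor
  · -- lower bound
    have h7 : (1 - ε) * D ≤ N * lx := by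
      rcases le_or_gt 1 ε with h | h
      · have : (1 - ε) * D ≤ 0 := mul_nonpos_of_nonpos_of_nonneg (by linarith) hD.le
        have : 0 ≤ N * lx := by positivity
        linarith
      · -- N (lx+2) ≥ (1-ε/2) D, (1-ε/2) lx ≥ (1-ε)(lx+2)
        have a1 : (1 - ε) * (lx + 2) ≤ (1 - ε / 2) * lx := by nlinarith
        have a2 : (1 - ε) * (lx + 2) * D ≤ (1 - ε / 2) * lx * D :=
          mul_le_mul_of_nonneg_right a1 hD.le
        have a3 : (1 - ε / 2) * D * lx ≤ N * (lx + 2) * lx := mul_le_mul_of_nonneg_right h6 hlx0.le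
        have a4 : ((1 - ε) * D) * (lx + 2) ≤ (N * lx) * (lx + 2) := by linarith
        exact le_of_mul_le_mul_right a4 (by linarith)
    have h8 : (1 - ε) * D / lx ≤ N := by
      rw [div_le_iff₀ hlx0]; exact h7
    have e : (1 - ε) * D / lx = D / lx - ε * (D / lx) := by ring
    linarith
  · have h7 : N * lx ≤ (1 + ε) * D := by
      have a1 : (1 + ε / 2) * lx ≤ (1 + ε) * (lx - 1) := by nlinarith
      have a2 : (1 + ε / 2) * lx * D ≤ (1 + ε) * (lx - 1) * D := mul_le_mul_of_nonneg_right a1 hD.le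
      have a3 : N * (lx - 1) * lx ≤ (1 + ε / 2) * D * lx := mul_le_mul_of_nonneg_right h5 hlx0.le
      have a4 : (N * lx) * (lx - 1) ≤ ((1 + ε) * D) * (lx - 1) := by linarith
      exact le_of_mul_le_mul_right a4 (by linarith)
    have h8 : N ≤ (1 + ε) * D / lx := by
      rw [le_div_iff₀ hlx0]; exact h7
    have e : (1 + ε) * D / lx = D / lx + ε * (D / lx) := by ring
    linarith

/-- the asymptotics, uniform in the class -/
theorem evt (m : ℕ) (hm : 1 ≤ m) (δ : ℝ) (hδ : 0 < δ) : ∃ y0 : ℝ, ∀ N : ℕ, y0 ≤ N →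
    (∀ a : ℕ, a.Coprime m → |Ps m a N - N / (Nat.totient m : ℝ)| ≤ δ * N) ∧
      Chebyshev.psi N - Chebyshev.theta N ≤ δ * N := by
  have : NeZero m := ⟨by omega⟩
  have h1 : ∀ b : ZMod m, ∀ᶠ x : ℝ in atTop, IsUnit b →
      |(∑ k ∈ Finset.Icc 1 ⌊x⌋₊, vonMangoldt.residueClass b k) / x - ((m.totient : ℝ)⁻¹)| ≤ δ := by
    intro b
    by_cases hb : IsUnit b
    · have h2 := Pool.Agent.Helper923.PNT.pnt_residueClass (q := m) hb
      rw [Metric.tendsto_nhds] at h2
      filter_upwards [h2 δ hδ] with x hx _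
      rw [Real.dist_eq] at hx
      exact hx.le
    · exact Eventually.of_forall fun x h => absurd h hb
  have h2 := eventually_all.2 h1
  have h3 : Tendsto (fun x : ℝ => Chebyshev.psi x / x - Chebyshev.theta x / x) atTop (𝓝 0) := by
    have := Pool.Agent.Helper923.PNT.psi_div_tendsto.sub
      Pool.Agent.Helper923.PNT.theta_div_tendsto
    rwa [sub_self] at this
  have h4 := h3.eventually_lt_const hδ
  obtain ⟨y0, hy0⟩ := eventually_atTop.1 (h2.and (h4.and (eventually_gt_atTop (0 : ℝ))))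
  refine ⟨y0, fun N hN => ?_⟩
  obtain ⟨h5, h6, h7⟩ := hy0 N hN
  constructor
  · intro a ha
    have h8 := h5 (a : ZMod m) ((ZMod.isUnit_iff_coprime a m).2 ha)
    rw [Nat.floor_natCast] at h8
    have e : Ps m a N - N / (Nat.totient m : ℝ) =
        ((∑ k ∈ Finset.Icc 1 N, vonMangoldt.residueClass (a : ZMod m) k) / (N : ℝ) -
          ((m.totient : ℝ)⁻¹)) * N := by
      unfold Ps
      field_simp
    rw [e, abs_mul, abs_of_pos h7]
    exact mul_le_mul_of_nonneg_right h8 h7.le
  · rw [← sub_div, div_lt_iff₀ h7] at h6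
    exact h6.le

end PAIP

open PAIP

theorem pai : PAI := by
  intro m hm ε c hε hc
  have hφ : (0 : ℝ) < (Nat.totient m : ℝ) := by
    exact_mod_cast Nat.totient_pos.2 (by omega : 0 < m)
  set φ : ℝ := (Nat.totient m : ℝ) with hφdef
  obtain ⟨y0, hy0⟩ := evt m hm (ε * c / (18 * φ)) (by positivity)
  refine ⟨max (2 * y0) (max (Real.exp (4 * (1 + ε) / ε)) 4), ?_⟩
  intro x hx u v a hu hv huv ha
  have hx1 : 2 * y0 ≤ x := (le_max_left _ _).trans hx
  have hx2 : Real.exp (4 * (1 + ε) / ε) ≤ x := ((le_max_left _ _).trans (le_max_right _ _)).trans hx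
  have hx3 : 4 ≤ x := ((le_max_right _ _).trans (le_max_right _ _)).trans hx
  have hx0 : 0 < x := by linarith
  have hu0 : (0 : ℝ) < u := by linarith
  have huN : 0 < u := by exact_mod_cast hu0
  have hcx : 0 < c * x := by positivity
  have huv' : (u : ℝ) < v := by linarith
  have huvN : u ≤ v := by exact_mod_cast huv'.le
  obtain ⟨p1, p2⟩ := hy0 u (by linarith)
  obtain ⟨p3, p4⟩ := hy0 v (by linarith)
  have q1 := p1 a ha
  have q2 := p3 a ha
  obtain ⟨s1, s2⟩ := split m a u v huvN
  obtain ⟨t1, t2⟩ := card_bounds m a u v huN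
  set δ : ℝ := ε * c / (18 * φ) with hδ
  have hδ0 : 0 < δ := by rw [hδ]; positivity
  have hD : 0 < ((v : ℝ) - u) / φ := div_pos (by linarith) hφ
  have key : |T m a u v - ((v : ℝ) - u) / φ| ≤ ε / 2 * (((v : ℝ) - u) / φ) := by
    have r1 := abs_le.1 q1
    have r2 := abs_le.1 q2
    have r3 : δ * u ≤ δ * (3 * x) := mul_le_mul_of_nonneg_left (by linarith) hδ0.le
    have r4 : δ * v ≤ δ * (3 * x) := mul_le_mul_of_nonneg_left hv hδ0.le
    have r5 : 9 * (δ * x) ≤ ε / 2 * (((v : ℝ) - u) / φ) := by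
      have e : 9 * (δ * x) = ε / 2 * ((c * x) / φ) := by
        rw [hδ]
        field_simp
        norm_num
      rw [e]
      refine mul_le_mul_of_nonneg_left ?_ (by positivity)
      exact (div_le_div_iff_of_pos_right hφ).2 (by linarith)
    have e2 : ((v : ℝ) - u) / φ = v / φ - u / φ := by ring
    rw [abs_le]
    constructor
    · linarith [r1.1, r1.2, r2.1, r2.2]
    · linarith [r1.1, r1.2, r2.1, r2.2]
  have hlu : Real.log x - 1 ≤ Real.log u := by
    have b1 : Real.log (x / 2) ≤ Real.log u := Real.log_le_log (by linarith) hu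
    rw [Real.log_div hx0.ne' (by norm_num)] at b1
    have b2 := Real.log_two_lt_d9
    linarith
  have hlv : Real.log v ≤ Real.log x + 2 := by
    have b1 : Real.log v ≤ Real.log (3 * x) := Real.log_le_log (by linarith) hv
    rw [Real.log_mul (by norm_num) hx0.ne'] at b1
    have b2 : Real.log 3 ≤ 2 := by
      have := Real.log_le_sub_one_of_pos (show (0 : ℝ) < 3 by norm_num)
      linarith
    linarith
  have hlx : 4 * (1 + ε) / ε ≤ Real.log x := by
    rw [Real.le_log_iff_exp_le hx0]
    exact hx2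
  have h9 : |(((Ioc u v).filter (fun q => q.Prime ∧ q % m = a % m)).card : ℝ) -
      ((v : ℝ) - u) / φ / Real.log x| ≤ ε * (((v : ℝ) - u) / φ / Real.log x) := by
    have hN : (0 : ℝ) ≤ (((Ioc u v).filter (fun q => q.Prime ∧ q % m = a % m)).card : ℝ) :=
      Nat.cast_nonneg _
    generalize (((Ioc u v).filter (fun q => q.Prime ∧ q % m = a % m)).card : ℝ) = N at *
    exact fin hN hε hD hlu hlv hlx t1 t2 key
  rw [div_div] at h9
  exact h9

end Pool.Agent.TH423.SH
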